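import Pool.Agent.SRP.Final

set_option autoImplicit false

/-! # MP_3b9597_lc: the homeomorphism relation of surfaces is Borel reducible to the homeomorphism
relation of 3-manifolds

The definitions (`IsManifold`, `IsUrysohn`, `effros`, `MM`, `borelMM`) are in
`Pool/Agent/SRF/Problem.lean`. The reduction maps a closed subset `X` of the Urysohn space `U` which is
a surface to a closed subset of `U` which is homeomorphic to `X × S¹`. The main point is the theorem
`Pool.Agent.SRF.sTOP`: arbitrary surfaces `X`, `Y` (second countable, not necessarily connected or
compact) such that `X × S¹` and `Y × S¹` are homeomorphic are homeomorphic. Its proof contains the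
theorem of Schoenflies, the exhaustion of surfaces by compact pieces with collared boundary, the
classification of the pieces and a description of all connected surfaces by planar models with ends,
handles and crosscaps, and the reconstruction of the ends and the numbers of handles and crosscaps
from `X × S¹`. -/

namespace Pool.Agent.Results.MP_3b9597_lc.SurfacesToThreeManifolds

open Pool.Agent.SRF

/-- Let `U` be the Urysohn space. There is a Borel map `f` from the space of the closed subsets of
`U` which are 2-manifolds to the space of the closed subsets of `U` which are 3-manifolds such that
`X` and `X'` are homeomorphic if and only if `f X` and `f X'` are homeomorphic. -/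
theorem result : ∀ (U : Type) [MetricSpace U], IsUrysohn U →
    ∃ f : MM 2 U → MM 3 U, @Measurable (MM 2 U) (MM 3 U) (borelMM 2 U) (borelMM 3 U) f ∧
      ∀ X X' : MM 2 U, Nonempty (↥X.1 ≃ₜ ↥X'.1) ↔ Nonempty (↥(f X).1 ≃ₜ ↥(f X').1) :=
  fun U _ hU => sFIN6 U hU

/-- The Urysohn space exists (so the theorem is not vacuous). -/
theorem urysohn_exists : ∃ (U : Type) (_ : MetricSpace U), IsUrysohn U := uex_exists

end Pool.Agent.Results.MP_3b9597_lc.SurfacesToThreeManifolds
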